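import Mathlib
import Pool.Agent.V1156.Alt.Model

/-!
The free alternative ring on at least six generators has an additive element of order three;
hence the free alternative algebra over a commutative ring need not be a free module.
-/

open Pool.Agent.V1156.Alt

universe u v

namespace Pool.Agent.Results.MP_2692c1_al.ThreeTorsion

/-- The ideal of the free nonassociative algebra on `X` over `Φ` generated by all
`(f, f, g)` and `(g, f, f)`: the least submodule that contains all of these and is closed under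
left and right multiplication by arbitrary elements.
Here `associator a b c = (a * b) * c - a * (b * c)`. -/
noncomputable def altIdeal (Φ : Type u) [CommRing Φ] (X : Type v) :
    Submodule Φ (FreeNonUnitalNonAssocAlgebra Φ X) :=
  sInf {I | (∀ f g : FreeNonUnitalNonAssocAlgebra Φ X,
      associator f f g ∈ I ∧ associator g f f ∈ I) ∧
    ∀ x ∈ I, ∀ a : FreeNonUnitalNonAssocAlgebra Φ X, a * x ∈ I ∧ x * a ∈ I}

/-- The free alternative `Φ`-algebra on `X`, as a `Φ`-module: the free nonassociative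
`Φ`-algebra on `X` modulo the ideal generated by all `(f, f, g)` and `(g, f, f)`. -/
abbrev Alt (Φ : Type u) [CommRing Φ] (X : Type v) : Type (max u v) :=
  FreeNonUnitalNonAssocAlgebra Φ X ⧸ altIdeal Φ X

section
variable {Φ : Type u} [CommRing Φ] {X : Type v}

/-- The congruence of a submodule closed under multiplication. -/
noncomputable def conOf (I : Submodule Φ (FreeNonUnitalNonAssocAlgebra Φ X))
    (hI : ∀ x ∈ I, ∀ a : FreeNonUnitalNonAssocAlgebra Φ X, a * x ∈ I ∧ x * a ∈ I) :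
    RingCon (FreeNonUnitalNonAssocAlgebra Φ X) where
  r a b := a - b ∈ I
  iseqv := ⟨fun a => by simp, fun {a b} h => by
    rw [← neg_sub]; exact I.neg_mem h, fun {a b c} h1 h2 => by
    have := I.add_mem h1 h2
    rwa [sub_add_sub_cancel] at this⟩
  add' := fun {a b c d} h1 h2 => by
    have := I.add_mem h1 h2
    rwa [sub_add_sub_comm] at this
  mul' := fun {a b c d} h1 h2 => by
    have h3 := I.add_mem (hI _ h2 a).1 (hI _ h1 d).2
    have : a * c - b * d = a * (c - d) + (a - b) * d := by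
      rw [mul_sub, sub_mul]; abel
    show a * c - b * d ∈ I
    rw [this]; exact h3

theorem six_tor_mem (x : Fin 6 → FreeNonUnitalNonAssocAlgebra Φ X) :
    (6 : ℕ) • tor (x 0) (x 1) (x 2) (x 3) (x 4) (x 5) ∈ altIdeal Φ X := by
  rw [altIdeal, Submodule.mem_sInf]
  rintro I ⟨hI1, hI2⟩
  let c := conOf I hI2
  have halt : IsAlt c.Quotient := by
    intro f g
    induction f using Quotient.inductionOn with
    | _ f =>
    induction g using Quotient.inductionOn with
    | _ g =>
    constructor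
    · show ((associator f f g : FreeNonUnitalNonAssocAlgebra Φ X) : c.Quotient) = ((0 :
        FreeNonUnitalNonAssocAlgebra Φ X) : c.Quotient)
      rw [RingCon.eq]
      show associator f f g - 0 ∈ I
      rw [sub_zero]; exact (hI1 f g).1
    · show ((associator g f f : FreeNonUnitalNonAssocAlgebra Φ X) : c.Quotient) = ((0 :
        FreeNonUnitalNonAssocAlgebra Φ X) : c.Quotient)
      rw [RingCon.eq]
      show associator g f f - 0 ∈ I
      rw [sub_zero]; exact (hI1 f g).2
  have h6 := six_tor halt (x 0 : c.Quotient) (x 1 : c.Quotient) (x 2 : c.Quotient)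
    (x 3 : c.Quotient) (x 4 : c.Quotient) (x 5 : c.Quotient)
  have h7 : (((6 : ℕ) • tor (x 0) (x 1) (x 2) (x 3) (x 4) (x 5) :
      FreeNonUnitalNonAssocAlgebra Φ X) : c.Quotient) =
      ((0 : FreeNonUnitalNonAssocAlgebra Φ X) : c.Quotient) := h6
  rw [RingCon.eq] at h7
  have h8 : (6 : ℕ) • tor (x 0) (x 1) (x 2) (x 3) (x 4) (x 5) - 0 ∈ I := h7
  rwa [sub_zero] at h8

/-- The assignment of generators in the model. -/
noncomputable def gens (K : Type*) [CommRing K] (ι : Fin 6 ↪ X) : X → Tw (kK K) := by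
  classical
  exact fun x => if h : ∃ i, ι i = x then Tw.sg (kK K) (2 ^ (h.choose : ℕ) : Fin 64) 1 else 0

theorem gens_apply (K : Type*) [CommRing K] (ι : Fin 6 ↪ X) (i : Fin 6) :
    gens K ι (ι i) = Tw.sg (kK K) (2 ^ (i : ℕ) : Fin 64) 1 := by
  have h : ∃ j, ι j = ι i := ⟨i, rfl⟩
  have e : h.choose = i := ι.injective h.choose_spec
  rw [gens, dif_pos h, e]

/-- The homomorphism to the model. -/
noncomputable def toModel (Φ : Type u) [CommRing Φ] (K : Type*) [CommRing K] [Algebra Φ K]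
    (ι : Fin 6 ↪ X) : FreeNonUnitalNonAssocAlgebra Φ X →ₙₐ[Φ] Tw (kK K) :=
  FreeNonUnitalNonAssocAlgebra.lift Φ (gens K ι)

theorem tor_map {R S : Type*} [NonUnitalNonAssocRing R] [NonUnitalNonAssocRing S]
    (F : R → S) (hadd : ∀ a b, F (a + b) = F a + F b) (hsub : ∀ a b, F (a - b) = F a - F b)
    (hmul : ∀ a b, F (a * b) = F a * F b) (a b c d e f : R) :
    F (tor a b c d e f) = tor (F a) (F b) (F c) (F d) (F e) (F f) := by
  simp only [tor, associator, jo, hadd, hsub, hmul]

theorem le_ker (K : Type*) [CommRing K] [Algebra Φ K] (h3 : (3 : K) = 0) (ι : Fin 6 ↪ X) :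
    altIdeal Φ X ≤ LinearMap.ker (toModel Φ K ι : FreeNonUnitalNonAssocAlgebra Φ X →ₗ[Φ]
      Tw (kK K)) := by
  apply sInf_le
  refine ⟨fun f g => ?_, fun x hx a => ?_⟩
  · have hA := model_isAlt (K := K) h3 (toModel Φ K ι f) (toModel Φ K ι g)
    constructor
    · rw [LinearMap.mem_ker]
      show toModel Φ K ι (associator f f g) = 0
      rw [← hA.1]
      simp only [associator, map_sub, map_mul]
    · rw [LinearMap.mem_ker]
      show toModel Φ K ι (associator g f f) = 0
      rw [← hA.2]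
      simp only [associator, map_sub, map_mul]
  · rw [LinearMap.mem_ker] at hx
    have hx' : toModel Φ K ι x = 0 := hx
    constructor
    · rw [LinearMap.mem_ker]
      show toModel Φ K ι (a * x) = 0
      rw [map_mul, hx', mul_zero]
    · rw [LinearMap.mem_ker]
      show toModel Φ K ι (x * a) = 0
      rw [map_mul, hx', zero_mul]

/-- The element of the free nonassociative algebra. -/
noncomputable def torF (Φ : Type u) [CommRing Φ] (ι : Fin 6 ↪ X) :
    FreeNonUnitalNonAssocAlgebra Φ X :=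
  tor (FreeNonUnitalNonAssocAlgebra.of Φ (ι 0)) (FreeNonUnitalNonAssocAlgebra.of Φ (ι 1))
    (FreeNonUnitalNonAssocAlgebra.of Φ (ι 2)) (FreeNonUnitalNonAssocAlgebra.of Φ (ι 3))
    (FreeNonUnitalNonAssocAlgebra.of Φ (ι 4)) (FreeNonUnitalNonAssocAlgebra.of Φ (ι 5))

theorem toModel_torF (K : Type*) [CommRing K] [Algebra Φ K] (h3 : (3 : K) = 0)
    (ι : Fin 6 ↪ X) : toModel Φ K ι (torF Φ ι) = Tw.sg (kK K) 63 1 := by
  rw [torF, tor_map (toModel Φ K ι) (map_add _) (map_sub _) (map_mul _)]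
  simp only [toModel, FreeNonUnitalNonAssocAlgebra.lift_of_apply, gens_apply]
  exact tor_model h3

/-- Evaluation of the top coordinate. -/
def evTop (Φ : Type u) [CommRing Φ] (K : Type*) [CommRing K] [Algebra Φ K] :
    Tw (kK K) →ₗ[Φ] K where
  toFun f := f 63
  map_add' _ _ := rfl
  map_smul' _ _ := rfl

/-- The functional on the free alternative algebra detecting the torsion element. -/
noncomputable def psi (K : Type*) [CommRing K] [Algebra Φ K] (h3 : (3 : K) = 0)
    (ι : Fin 6 ↪ X) : Alt Φ X →ₗ[Φ] K :=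
  (altIdeal Φ X).liftQ
    ((evTop Φ K).comp (toModel Φ K ι : FreeNonUnitalNonAssocAlgebra Φ X →ₗ[Φ] Tw (kK K)))
    (fun x hx => by
      have h := le_ker (Φ := Φ) K h3 ι hx
      rw [LinearMap.mem_ker] at h ⊢
      rw [LinearMap.comp_apply, h, map_zero])

/-- The torsion element. -/
noncomputable def torAlt (Φ : Type u) [CommRing Φ] (ι : Fin 6 ↪ X) : Alt Φ X :=
  (altIdeal Φ X).mkQ (-((2 : ℕ) • torF Φ ι))

theorem psi_torAlt (K : Type*) [CommRing K] [Algebra Φ K] (h3 : (3 : K) = 0)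
    (ι : Fin 6 ↪ X) : psi (Φ := Φ) K h3 ι (torAlt Φ ι) = 1 := by
  have h1 : psi (Φ := Φ) K h3 ι (torAlt Φ ι) = evTop Φ K (toModel Φ K ι (-((2 : ℕ) • torF Φ ι))) :=
    rfl
  rw [h1, map_neg, map_nsmul, toModel_torF K h3, map_neg, map_nsmul]
  have h2 : evTop Φ K (Tw.sg (kK K) 63 1) = 1 := by
    show Tw.sg (kK K) 63 1 63 = 1
    simp [Tw.sg]
  rw [h2, nsmul_eq_mul]
  push_cast
  linear_combination -h3

theorem three_torAlt (ι : Fin 6 ↪ X) : (3 : Φ) • torAlt Φ ι = 0 := by
  have h6 := six_tor_mem (Φ := Φ) (fun i => FreeNonUnitalNonAssocAlgebra.of Φ (ι i))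
  have h : (3 : Φ) • torAlt Φ ι = - (altIdeal Φ X).mkQ ((6 : ℕ) • torF Φ ι) := by
    rw [torAlt, map_neg, map_nsmul, map_nsmul, smul_neg, ← Nat.cast_smul_eq_nsmul Φ 2,
      ← Nat.cast_smul_eq_nsmul Φ 6, smul_smul]
    norm_num
  rw [h, neg_eq_zero, ← LinearMap.mem_ker, Submodule.ker_mkQ]
  exact h6

theorem isUnit_of_torAlt_eq_zero (ι : Fin 6 ↪ X) (h0 : torAlt Φ ι = 0) :
    IsUnit (3 : Φ) := by
  by_contra hu
  have h3 : (3 : Φ ⧸ Ideal.span {(3 : Φ)}) = 0 := by
    have : (Ideal.Quotient.mk (Ideal.span {(3 : Φ)})) 3 = 0 :=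
      Ideal.Quotient.eq_zero_iff_mem.2 (Ideal.mem_span_singleton_self 3)
    rw [map_ofNat] at this
    exact this
  have h1 := psi_torAlt (Φ := Φ) (Φ ⧸ Ideal.span {(3 : Φ)}) h3 ι
  rw [h0, map_zero] at h1
  have h2 : (Ideal.Quotient.mk (Ideal.span {(3 : Φ)})) 1 = 0 := by
    rw [map_one]; exact h1.symm
  rw [Ideal.Quotient.eq_zero_iff_mem, Ideal.mem_span_singleton] at h2
  exact hu (isUnit_of_dvd_one h2)

theorem of_free (ι : Fin 6 ↪ X) (hfree : Module.Free Φ (Alt Φ X)) :
    ∃ e c : Φ, 3 * e = 0 ∧ e + 3 * c = 1 := by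
  have h3 : (3 : Φ ⧸ Ideal.span {(3 : Φ)}) = 0 := by
    have : (Ideal.Quotient.mk (Ideal.span {(3 : Φ)})) 3 = 0 :=
      Ideal.Quotient.eq_zero_iff_mem.2 (Ideal.mem_span_singleton_self 3)
    rw [map_ofNat] at this
    exact this
  have h1 := psi_torAlt (Φ := Φ) (Φ ⧸ Ideal.span {(3 : Φ)}) h3 ι
  let b := Module.Free.chooseBasis Φ (Alt Φ X)
  have hz : ∀ i, 3 * b.repr (torAlt Φ ι) i = 0 := by
    intro i
    have := three_torAlt (Φ := Φ) ι
    have h := congrArg (fun x => b.repr x i) this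
    simpa using h
  have hs : torAlt Φ ι = (b.repr (torAlt Φ ι)).sum fun i a => a • b i :=
    (b.linearCombination_repr _).symm
  choose c hc using fun i =>
    Ideal.Quotient.mk_surjective (psi (Φ := Φ) (Φ ⧸ Ideal.span {(3 : Φ)}) h3 ι (b i))
  let e : Φ := (b.repr (torAlt Φ ι)).sum fun i a => a * c i
  have he : Ideal.Quotient.mk (Ideal.span {(3 : Φ)}) e = 1 := by
    rw [← h1]
    conv_rhs => rw [hs]
    rw [Finsupp.sum, map_sum]
    simp only [e, Finsupp.sum, map_sum, map_smul, map_mul, hc]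
    refine Finset.sum_congr rfl fun i _ => ?_
    rw [Algebra.smul_def]
    rfl
  have h5 : (1 - e) ∈ Ideal.span {(3 : Φ)} := by
    rw [← Ideal.Quotient.eq_zero_iff_mem, map_sub, map_one, he, sub_self]
  obtain ⟨d, hd⟩ := Ideal.mem_span_singleton'.1 h5
  refine ⟨e, d, ?_, by linear_combination hd⟩
  simp only [e, Finsupp.sum, Finset.mul_sum]
  refine Finset.sum_eq_zero fun i _ => ?_
  rw [← mul_assoc, hz i, zero_mul]

end

/-- The free alternative ring on countably many generators has an additive element of order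
three, so it is not a free `ℤ`-module. More generally, for every commutative ring `Φ` and every
set `X` with at least six elements, `Alt Φ X` has an element `f` with `3 f = 0` which is nonzero
unless `3` is invertible in `Φ`; and if `Alt Φ X` is a free `Φ`-module, then `1 = e + 3 c` with
`3 e = 0`. -/
theorem result :
    (∃ f : Alt ℤ ℕ, f ≠ 0 ∧ (3 : ℤ) • f = 0) ∧ ¬ Module.Free ℤ (Alt ℤ ℕ) ∧
    ∀ (Φ : Type u) [CommRing Φ] (X : Type v), Nonempty (Fin 6 ↪ X) →
      (∃ f : Alt Φ X, (3 : Φ) • f = 0 ∧ (f = 0 → IsUnit (3 : Φ))) ∧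
      (Module.Free Φ (Alt Φ X) → ∃ e c : Φ, 3 * e = 0 ∧ e + 3 * c = 1) := by
  refine ⟨?_, ?_, ?_⟩
  · let ι : Fin 6 ↪ ℕ := ⟨fun i => i, Fin.val_injective⟩
    refine ⟨torAlt ℤ ι, fun h0 => ?_, three_torAlt ι⟩
    have := isUnit_of_torAlt_eq_zero ι h0
    rw [Int.isUnit_iff] at this
    omega
  · intro hfree
    let ι : Fin 6 ↪ ℕ := ⟨fun i => i, Fin.val_injective⟩
    obtain ⟨e, c, h1, h2⟩ := of_free ι hfree
    omega
  · rintro Φ _ X ⟨ι⟩
    exact ⟨⟨torAlt Φ ι, three_torAlt ι, isUnit_of_torAlt_eq_zero ι⟩, of_free ι⟩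

end Pool.Agent.Results.MP_2692c1_al.ThreeTorsion
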